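import Mathlib

/-!
Project LR (helper727): a harmonic polynomial on the unit ball of `ℝ³` which is homeomorphic to a
linear function and has a critical point at the centre (MP_c10eee_an, full negative answer).
Statements of the parts.
-/

set_option autoImplicit false

namespace Pool.Agent.N727.LR

open Set

/-- The harmonic polynomial in the variables `s = x² - y²`, `t = x² + y²`, `z`. -/
noncomputable def W (s t z : ℝ) : ℝ :=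
  100 * s + 67 * (z ^ 3 - 3 / 2 * z * t) + 117 * (s * z ^ 2 - s * t / 6)
    + 23 * (z ^ 5 - 5 * z ^ 3 * t + 15 / 8 * z * t ^ 2) + 104 * (z * (2 * s ^ 2 - t ^ 2))
    + 151 * (s * (z ^ 4 - z ^ 2 * t + t ^ 2 / 16))
    + 141 * ((2 * s ^ 2 - t ^ 2) * (z ^ 3 - 3 / 10 * z * t))
    + 90 * ((4 * s ^ 3 - 3 * s * t ^ 2) * (z ^ 2 - t / 14))

/-- What is used about `W` in the topological part. -/
structure Good (W : ℝ → ℝ → ℝ → ℝ) (M : ℝ) : Prop where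
  cont : Continuous (fun p : ℝ × ℝ × ℝ => W p.1 p.2.1 p.2.2)
  m1 : ∀ z t s s' : ℝ, t + z ^ 2 ≤ 1 → -t ≤ s → s < s' → s' ≤ t → W s t z < W s' t z
  m2 : ∀ z t t' : ℝ, 0 ≤ t → t < t' → t' + z ^ 2 ≤ 1 → W t t z < W t' t' z
  m3 : ∀ z t t' : ℝ, 0 ≤ t → t < t' → t' + z ^ 2 ≤ 1 → W (-t') t' z < W (-t) t z
  m4 : ∀ z z' : ℝ, -1 ≤ z → z < z' → z' ≤ 1 → W 0 0 z < W 0 0 z'
  m5 : ∀ z z' : ℝ, -1 ≤ z → z < z' → z' ≤ 1 →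
    W (1 - z ^ 2) (1 - z ^ 2) z < W (1 - z' ^ 2) (1 - z' ^ 2) z'
  m6 : ∀ z z' : ℝ, -1 ≤ z → z < z' → z' ≤ 1 →
    W (-(1 - z ^ 2)) (1 - z ^ 2) z < W (-(1 - z' ^ 2)) (1 - z' ^ 2) z'
  top : W 0 0 1 = M
  bot : W 0 0 (-1) = -M

/-- The closed unit ball, as a subset of `ℝ × ℝ × ℝ`. -/
def Ball3 : Set (ℝ × ℝ × ℝ) := {p | p.1 ^ 2 + p.2.1 ^ 2 + p.2.2 ^ 2 ≤ 1}

/-- The image of the ball under `τ`. -/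
def D : Set (ℝ × ℝ × ℝ) := {p | |p.1| ≤ p.2.1 ∧ p.2.1 + p.2.2 ^ 2 ≤ 1}

/-- The coordinates `s = x² - y²`, `t = x² + y²`, `z`. -/
def τ (p : ℝ × ℝ × ℝ) : ℝ × ℝ × ℝ := (p.1 ^ 2 - p.2.1 ^ 2, p.1 ^ 2 + p.2.1 ^ 2, p.2.2)

/-- A closed relation which is a bijection of `D` and preserves the faces `s = t` and `s = -t`. -/
structure FaceRel (r : ℝ × ℝ × ℝ → ℝ × ℝ × ℝ → Prop) : Prop where
  closed : IsClosed {p : (ℝ × ℝ × ℝ) × (ℝ × ℝ × ℝ) | r p.1 p.2}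
  fwd : ∀ p ∈ D, ∃! q, q ∈ D ∧ r p q
  bwd : ∀ q ∈ D, ∃! p, p ∈ D ∧ r p q
  fp : ∀ p ∈ D, ∀ q ∈ D, r p q → (p.1 = p.2.1 ↔ q.1 = q.2.1)
  fm : ∀ p ∈ D, ∀ q ∈ D, r p q → (p.1 = -p.2.1 ↔ q.1 = -q.2.1)

/-- (REL) A closed relation between compact spaces which is a bijection is a homeomorphism. -/
def S_REL : Prop := ∀ (X Y : Type) [TopologicalSpace X] [TopologicalSpace Y] [CompactSpace X]
  [T2Space X] [CompactSpace Y] [T2Space Y] (R : X → Y → Prop),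
  IsClosed {p : X × Y | R p.1 p.2} → (∀ x, ∃! y, R x y) → (∀ y, ∃! x, R x y) →
  ∃ h : X ≃ₜ Y, ∀ x, R x (h x)

/-- (LIFT) Lifting a face preserving relation to the ball. -/
def S_LIFT : Prop := ∀ r : ℝ × ℝ × ℝ → ℝ × ℝ × ℝ → Prop, FaceRel r →
  ∃ h : Ball3 ≃ₜ Ball3, ∀ p : Ball3, r (τ p.1) (τ (h p).1)

/-- (R1) The first relation. -/
def S_R1 : Prop := ∀ (W : ℝ → ℝ → ℝ → ℝ) (M : ℝ), Good W M →
  FaceRel (fun p q => q.2.1 = p.2.1 ∧ q.2.2 = p.2.2 ∧ W q.1 |q.1| q.2.2 = W p.1 p.2.1 p.2.2)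

/-- What is used about `G θ z = W θ |θ| z`. -/
structure GoodG (G : ℝ → ℝ → ℝ) (M : ℝ) : Prop where
  cont : Continuous (fun p : ℝ × ℝ => G p.1 p.2)
  g1 : ∀ z s s' : ℝ, -(1 - z ^ 2) ≤ s → s < s' → s' ≤ 1 - z ^ 2 → G s z < G s' z
  g4 : ∀ z z' : ℝ, -1 ≤ z → z < z' → z' ≤ 1 → G 0 z < G 0 z'
  g5 : ∀ z z' : ℝ, -1 ≤ z → z < z' → z' ≤ 1 → G (1 - z ^ 2) z < G (1 - z' ^ 2) z'
  g6 : ∀ z z' : ℝ, -1 ≤ z → z < z' → z' ≤ 1 → G (-(1 - z ^ 2)) z < G (-(1 - z' ^ 2)) z'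
  top : G 0 1 = M
  bot : G 0 (-1) = -M

/-- (GG) -/
def S_GG : Prop := ∀ (W : ℝ → ℝ → ℝ → ℝ) (M : ℝ), Good W M → GoodG (fun s z => W s |s| z) M

/-- The three inverse functions. -/
structure Inv (G : ℝ → ℝ → ℝ) (M : ℝ) (a b c : ℝ → ℝ) : Prop where
  ca : Continuous a
  cb : Continuous b
  cc : Continuous c
  ma : ∀ x, -1 ≤ a x ∧ a x ≤ 1
  mb : ∀ x, -1 ≤ b x ∧ b x ≤ 1
  mc : ∀ x, -1 ≤ c x ∧ c x ≤ 1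
  ea : ∀ x, -M ≤ x → x ≤ M → G 0 (a x) = x
  eb : ∀ x, -M ≤ x → x ≤ M → G (1 - b x ^ 2) (b x) = x
  ec : ∀ x, -M ≤ x → x ≤ M → G (-(1 - c x ^ 2)) (c x) = x

/-- (INV) -/
def S_INV : Prop := ∀ (G : ℝ → ℝ → ℝ) (M : ℝ), GoodG G M → ∃ a b c : ℝ → ℝ, Inv G M a b c

/-- The second relation. -/
def r2 (G : ℝ → ℝ → ℝ) (M : ℝ) (a b c : ℝ → ℝ) (p q : ℝ × ℝ × ℝ) : Prop :=
  G p.1 p.2.2 = M * q.2.2 ∧
  max q.1 0 * (a (M * q.2.2) - b (M * q.2.2)) = (1 - q.2.2 ^ 2) * max (a (M * q.2.2) - p.2.2) 0 ∧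
  max (-q.1) 0 * (c (M * q.2.2) - a (M * q.2.2)) = (1 - q.2.2 ^ 2) * max (p.2.2 - a (M * q.2.2)) 0 ∧
  (q.2.1 - |q.1|) * (1 - p.2.2 ^ 2 - |p.1|) = (p.2.1 - |p.1|) * (1 - q.2.2 ^ 2 - |q.1|)

/-- (R2C) -/
def S_R2C : Prop := ∀ (G : ℝ → ℝ → ℝ) (M : ℝ) (a b c : ℝ → ℝ), GoodG G M → Inv G M a b c →
  IsClosed {p : (ℝ × ℝ × ℝ) × (ℝ × ℝ × ℝ) | r2 G M a b c p.1 p.2}

/-- (R2F) -/
def S_R2F : Prop := ∀ (G : ℝ → ℝ → ℝ) (M : ℝ) (a b c : ℝ → ℝ), GoodG G M → Inv G M a b c →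
  ∀ p ∈ D, ∃! q, q ∈ D ∧ r2 G M a b c p q

/-- (R2B) -/
def S_R2B : Prop := ∀ (G : ℝ → ℝ → ℝ) (M : ℝ) (a b c : ℝ → ℝ), GoodG G M → Inv G M a b c →
  ∀ q ∈ D, ∃! p, p ∈ D ∧ r2 G M a b c p q

/-- (R2P) -/
def S_R2P : Prop := ∀ (G : ℝ → ℝ → ℝ) (M : ℝ) (a b c : ℝ → ℝ), GoodG G M → Inv G M a b c →
  ∀ p ∈ D, ∀ q ∈ D, r2 G M a b c p q →
    (p.1 = p.2.1 ↔ q.1 = q.2.1) ∧ (p.1 = -p.2.1 ↔ q.1 = -q.2.1)

/-- (TOP) The topological theorem. -/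
def S_TOP : Prop := ∀ (W : ℝ → ℝ → ℝ → ℝ) (M : ℝ), Good W M →
  ∃ h : Ball3 ≃ₜ Ball3, ∀ p : Ball3,
    W (p.1.1 ^ 2 - p.1.2.1 ^ 2) (p.1.1 ^ 2 + p.1.2.1 ^ 2) p.1.2.2 = M * (h p).1.2.2

/-- (GOOD) -/
def S_GOOD : Prop := Good W 90

/-- Euclidean space of dimension three. -/
abbrev E3 := EuclideanSpace ℝ (Fin 3)

/-- The solution. -/
noncomputable def u (x : E3) : ℝ := W (x 0 ^ 2 - x 1 ^ 2) (x 0 ^ 2 + x 1 ^ 2) (x 2)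

/-- (TRANS) Transport to Euclidean space. -/
def S_TRANS : Prop := ∀ h : Ball3 ≃ₜ Ball3,
  ∃ Φ : Metric.closedBall (0 : E3) 1 ≃ₜ Metric.closedBall (0 : E3) 1,
    ∀ (p : Ball3) (x : Metric.closedBall (0 : E3) 1), x.1 0 = p.1.1 → x.1 1 = p.1.2.1 →
      x.1 2 = p.1.2.2 → (Φ x).1 2 = (h p).1.2.2

/-- (LAP) The function is smooth and harmonic. -/
def S_LAP : Prop := ContDiff ℝ ⊤ u ∧ ∀ x : E3, Laplacian.laplacian u x = 0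

/-- (QUAD) Quadratic bound at the origin. -/
def S_QUAD : Prop := ∀ x : E3, ‖x‖ ≤ 1 → |u x - u 0| ≤ 3000 * ‖x‖ ^ 2

/-- (NOISO) A function with vanishing differential at the origin which is not locally constant is
not of the form `α ⟨Φ x, a⟩ + β` with a map `Φ` which is an isometry up to distortion of 1 percent. -/
def S_NOISO : Prop := ∀ (f : E3 → ℝ) (C δ : ℝ), (∀ x : E3, ‖x‖ ≤ 1 → |f x - f 0| ≤ C * ‖x‖ ^ 2) →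
  0 < δ → (∃ x : E3, ‖x‖ < δ ∧ f x ≠ f 0) →
  ∀ (α β : ℝ) (a : E3) (Φ : E3 → E3), ‖a‖ = 1 →
    (∀ x y : E3, ‖x‖ < δ → ‖y‖ < δ →
      99 / 100 * ‖x - y‖ ≤ ‖Φ x - Φ y‖ ∧ ‖Φ x - Φ y‖ ≤ 101 / 100 * ‖x - y‖) →
    ¬ ∀ x : E3, ‖x‖ < δ → f x = α * inner ℝ (Φ x) a + β

end Pool.Agent.N727.LR
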